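import Pool.Agent.Helper12.MA.StD
import Pool.Agent.Helper12.MA.Lib

/-!
# Project MA, module UCA: two components
-/

set_option autoImplicit false

namespace Pool.Agent.Helper89.MA

open Pool.Agent.Helper12.MA
open Pool.Agent.Helper51.AJ (IsMinor Planar Apex ExMinor Con Tch)
open Pool.Agent.Helper12.NK (rst Kc add cnt Pcy IsFace Cof plus)

private theorem comp_ex {V : Type} (G : SimpleGraph V) (W : Set V) (d : V) (hd : d ∈ W) :
    ∃ D : Set V, D ⊆ W ∧ d ∈ D ∧ Con G D ∧ ∀ a ∈ D, ∀ b ∈ W, G.Adj a b → b ∈ D := by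
  refine ⟨{b | Relation.ReflTransGen (fun a b => G.Adj a b ∧ b ∈ W) d b}, ?_, ?_, ?_, ?_⟩
  · intro b hb
    rcases Relation.ReflTransGen.cases_tail hb with h | ⟨c, _, h⟩
    · rw [h]; exact hd
    · exact h.2
  · exact Relation.ReflTransGen.refl
  · have key : ∀ b (h : b ∈ {b | Relation.ReflTransGen (fun a b => G.Adj a b ∧ b ∈ W) d b}),
        (G.induce {b | Relation.ReflTransGen (fun a b => G.Adj a b ∧ b ∈ W) d b}).Reachable
          ⟨d, Relation.ReflTransGen.refl⟩ ⟨b, h⟩ := by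
      intro b h
      have h' : Relation.ReflTransGen (fun a b => G.Adj a b ∧ b ∈ W) d b := h
      induction h' with
      | refl => exact SimpleGraph.Reachable.refl _
      | @tail b c h1 h2 ih =>
        refine (ih h1).trans (SimpleGraph.Adj.reachable ?_)
        simpa using h2.1
    refine (SimpleGraph.connected_iff _).2 ⟨?_, ⟨⟨d, Relation.ReflTransGen.refl⟩⟩⟩
    intro a b
    exact (key a.1 a.2).symm.trans (key b.1 b.2)
  · intro a ha b hb hab
    exact Relation.ReflTransGen.tail ha ⟨hab, hb⟩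

private theorem closed_sub {V : Type} (G : SimpleGraph V) (D₁ D₂ : Set V) (hc : Con G D₂)
    (hcl : ∀ a ∈ D₁, ∀ b ∈ D₂, G.Adj a b → b ∈ D₁) (z : V) (hz1 : z ∈ D₁) (hz2 : z ∈ D₂) : D₂ ⊆ D₁ := by
  intro w hw
  obtain ⟨p⟩ := hc.preconnected ⟨z, hz2⟩ ⟨w, hw⟩
  have key : ∀ (a b : D₂) (_ : (G.induce D₂).Walk a b), a.1 ∈ D₁ → b.1 ∈ D₁ := by
    intro a b p
    induction p with
    | nil => exact id
    | @cons u v w h p ih =>
      intro ha
      refine ih (hcl _ ha _ v.2 ?_)
      simpa using h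
  exact key _ _ p hz1

private theorem con_sing {V : Type} (G : SimpleGraph V) (u : V) : Con G {u} := by
  refine (SimpleGraph.connected_iff _).2 ⟨?_, ⟨⟨u, rfl⟩⟩⟩
  intro a b
  have : a = b := Subtype.ext ((show a.1 = u from a.2).trans (show b.1 = u from b.2).symm)
  rw [this]

private theorem con_dl {V : Type} (G : SimpleGraph V) (x y : V) (D : Set V) (hx : x ∉ D) (hc : Con G D) :
    Con (dl G x y) D := by
  have : (dl G x y).induce D = G.induce D := by
    ext a b
    simp only [SimpleGraph.comap_adj, Function.Embedding.subtype_apply]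
    constructor
    · intro h; exact h.1
    · intro h
      refine ⟨h, ?_, ?_⟩
      · rintro ⟨h1, -⟩; exact hx (h1 ▸ a.2)
      · rintro ⟨-, h1⟩; exact hx (h1 ▸ b.2)
  unfold Pool.Agent.Helper51.AJ.Con
  rw [this]; exact hc

private theorem cof_ne {V : Type} (M : SimpleGraph V) (s x u : V) (h : Cof M {s}ᶜ x u) : u ≠ s := by
  obtain ⟨F, ⟨m, c, hc, rfl⟩, -, hu⟩ := h
  exact fun e => hc.2.2.1 hu e

private theorem lemA {V : Type} [Finite V] (hP : StPCL) (hB : StBAS) (G : SimpleGraph V) (s x y : V) (hG : Bh G)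
    (hxy : G.Adj x y) (hs : Srv G s x y) (D : Set V) (hD : D ⊆ ({s, x, y} : Set V)ᶜ) (hDc : Con G D)
    (u : Fin 3 → V) (huD : ∀ i, u i ∉ D) (huU : ∀ i, u i ∈ US G s x y) (hne : ∀ i j, i ≠ j → u i ≠ u j)
    (ht : ∀ i, ∃ a ∈ D, G.Adj a (u i)) : False := by
  obtain ⟨p1, -, -, p4, -, p6⟩ := hP V (dl G x y) {s}ᶜ
  obtain ⟨-, -, -, -, b5, -, b7⟩ := hB V G hG
  have hPn : Pn (dl G x y) {s}ᶜ := ⟨b5 s x y, hs.2.2⟩
  have hnc := b7 s x y hxy hs
  have hxD : x ∉ D := fun h => hD h (by simp)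
  have hyD : y ∉ D := fun h => hD h (by simp)
  have hsD : s ∉ D := fun h => hD h (by simp)
  have hxs : x ∈ ({s} : Set V)ᶜ := fun e => hs.1 (Set.mem_singleton_iff.1 e).symm
  have hys : y ∈ ({s} : Set V)ᶜ := fun e => hs.2.1 (Set.mem_singleton_iff.1 e).symm
  have hus : ∀ i, u i ∈ ({s} : Set V)ᶜ := fun i => cof_ne _ _ _ _ (huU i).2.2.1
  have hxyne : x ≠ y := G.ne_of_adj hxy
  let Fx : Set (Set V) := {F | IsFace (dl G x y) {s}ᶜ F ∧ x ∈ F}
  let Fy : Set (Set V) := {F | IsFace (dl G x y) {s}ᶜ F ∧ y ∈ F}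
  have hFxy : Disjoint Fx Fy := by
    rw [Set.disjoint_left]
    intro F h1 h2
    exact hnc ⟨F, h1.1, h1.2, h2.2⟩
  refine p6 hPn ![D, {x}, {y}] (fun i => {u i}) ![∅, Fx, Fy] (fun _ => ∅) ?_ ?_ ?_ ?_ ?_ ?_ ?_ ?_ ?_
  · intro i
    fin_cases i
    · exact p1 D (fun a ha e => hsD ((Set.mem_singleton_iff.1 e) ▸ ha)) (con_dl G x y D hxD hDc)
    · exact p4 x Fx hxs (fun F h => h.2)
    · exact p4 y Fy hys (fun F h => h.2)
  · intro i
    exact p4 (u i) ∅ (hus i) (fun F h => h.elim)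
  · intro i j hij
    fin_cases i <;> fin_cases j <;>
      first
      | exact absurd rfl hij
      | (simp only [Fin.zero_eta, Fin.mk_one, Fin.reduceFinMk, Matrix.cons_val_zero, Matrix.cons_val_one, Matrix.cons_val]
         first
         | exact Set.disjoint_singleton_right.2 hxD
         | exact Set.disjoint_singleton_right.2 hyD
         | exact Set.disjoint_singleton_left.2 hxD
         | exact Set.disjoint_singleton_left.2 hyD
         | exact Set.disjoint_singleton.2 hxyne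
         | exact Set.disjoint_singleton.2 hxyne.symm)
  · intro i j hij
    exact Set.disjoint_singleton.2 (hne i j hij)
  · intro i j
    fin_cases i
    · exact Set.disjoint_singleton_right.2 (huD j)
    · exact Set.disjoint_singleton.2 (huU j).1.symm
    · exact Set.disjoint_singleton.2 (huU j).2.1.symm
  · intro i j hij
    fin_cases i <;> fin_cases j <;>
      first
      | exact absurd rfl hij
      | exact Set.empty_disjoint _
      | exact Set.disjoint_empty _
      | exact hFxy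
      | exact hFxy.symm
  · intro i j hij
    exact Set.empty_disjoint _
  · intro i j
    exact Set.disjoint_empty _
  · intro i j
    fin_cases i
    · left
      obtain ⟨a, ha, hau⟩ := ht j
      refine ⟨a, ha, u j, rfl, fun e => hsD ((Set.mem_singleton_iff.1 e) ▸ ha), hus j, hau, ?_, ?_⟩
      · rintro ⟨h, -⟩; exact hxD (h ▸ ha)
      · rintro ⟨h, -⟩; exact hyD (h ▸ ha)
    · right; right
      obtain ⟨F, hF, h1, h2⟩ := (huU j).2.2.1
      exact ⟨F, ⟨hF, h1⟩, u j, rfl, hF, h2⟩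
    · right; right
      obtain ⟨F, hF, h1, h2⟩ := (huU j).2.2.2
      exact ⟨F, ⟨hF, h1⟩, u j, rfl, hF, h2⟩

/-- at most two elements of `US` touch `D` -/
private theorem lemA' {V : Type} [Finite V] (hP : StPCL) (hB : StBAS) (G : SimpleGraph V) (s x y : V) (hG : Bh G)
    (hxy : G.Adj x y) (hs : Srv G s x y) (D : Set V) (hD : D ⊆ ({s, x, y} : Set V)ᶜ) (hDc : Con G D) :
    (Nb G D ∩ US G s x y).ncard ≤ 2 := by
  by_contra hlt
  have hlt' : 2 < (Nb G D ∩ US G s x y).ncard := by omega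
  obtain ⟨a, b, c, ha, hb, hc, hab, hac, hbc⟩ := (Set.two_lt_ncard_iff (Set.toFinite _)).1 hlt'
  refine lemA hP hB G s x y hG hxy hs D hD hDc ![a, b, c] ?_ ?_ ?_ ?_
  · intro i
    fin_cases i
    · exact ha.1.1
    · exact hb.1.1
    · exact hc.1.1
  · intro i
    fin_cases i
    · exact ha.2
    · exact hb.2
    · exact hc.2
  · intro i j hij
    fin_cases i <;> fin_cases j <;>
      first
      | exact absurd rfl hij
      | exact hab
      | exact hac
      | exact hbc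
      | exact hab.symm
      | exact hac.symm
      | exact hbc.symm
  · intro i
    fin_cases i
    · exact ha.1.2
    · exact hb.1.2
    · exact hc.1.2

private theorem card3 {V : Type} (a b c : V) : ({a, b, c} : Set V).ncard ≤ 3 := by
  refine (Set.ncard_insert_le _ _).trans ?_
  have := Set.ncard_insert_le b ({c} : Set V)
  rw [Set.ncard_singleton] at this
  omega

/-- a set `N ⊆ {a, b, c} ∪ A` with at least five elements such that `N ∩ A` has at most two -/
private theorem five {V : Type} [Finite V] (a b c : V) (A N : Set V) (hN : N ⊆ ({a, b, c} : Set V) ∪ A)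
    (h5 : 5 ≤ N.ncard) (h2 : (N ∩ A).ncard ≤ 2) :
    ∃ u u', u ∈ A ∧ u' ∈ A ∧ u ≠ u' ∧ N = {b, c, a, u, u'} := by
  have hsub : N ⊆ ({a, b, c} : Set V) ∪ (N ∩ A) := by
    intro t ht
    rcases hN ht with h | h
    · exact Or.inl h
    · exact Or.inr ⟨ht, h⟩
  have h3 := card3 a b c
  have hun := Set.ncard_union_le ({a, b, c} : Set V) (N ∩ A)
  have hle := Set.ncard_le_ncard hsub (Set.toFinite _)
  have h22 : (N ∩ A).ncard = 2 := by omega
  have hEq : N = ({a, b, c} : Set V) ∪ (N ∩ A) := by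
    apply Set.eq_of_subset_of_ncard_le hsub _ (Set.toFinite _)
    omega
  obtain ⟨u, u', hne, huu⟩ := Set.ncard_eq_two.1 h22
  have hu : u ∈ N ∩ A := by rw [huu]; simp
  have hu' : u' ∈ N ∩ A := by rw [huu]; simp
  refine ⟨u, u', hu.2, hu'.2, hne, ?_⟩
  rw [hEq, huu]
  ext t
  simp only [Set.mem_union, Set.mem_insert_iff, Set.mem_singleton_iff]
  tauto

/-- components of the complement -/
private theorem lemB {V : Type} [Finite V] (hP : StPCL) (hB : StBAS) (G : SimpleGraph V) (s x y : V) (hG : Bh G)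
    (hxy : G.Adj x y) (hs : Srv G s x y) (h3 : 3 ≤ (US G s x y).ncard) (D : Set V)
    (hD : D ⊆ ({s, x, y} ∪ US G s x y)ᶜ) (hDc : Con G D)
    (hcl : ∀ a ∈ D, ∀ b ∈ ({s, x, y} ∪ US G s x y)ᶜ, G.Adj a b → b ∈ D) :
    ∃ u u', Bl G s x y D u u' := by
  have hD' : D ⊆ ({s, x, y} : Set V)ᶜ := fun t ht h => hD ht (Or.inl h)
  have h2 := lemA' hP hB G s x y hG hxy hs D hD' hDc
  obtain ⟨-, -, -, -, -, b6, -⟩ := hB V G hG
  have hNe : D.Nonempty := by
    obtain ⟨⟨t, ht⟩⟩ := hDc.nonempty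
    exact ⟨t, ht⟩
  have hex : ∃ t ∈ US G s x y, t ∉ Nb G D := by
    by_contra hcon
    push Not at hcon
    have : US G s x y ⊆ Nb G D ∩ US G s x y := fun t ht => ⟨hcon t ht, ht⟩
    have := Set.ncard_le_ncard this (Set.toFinite _)
    omega
  obtain ⟨t, htU, htN⟩ := hex
  have h5 : 5 ≤ (Nb G D).ncard := by
    by_contra hlt
    have h4 : (Nb G D).ncard ≤ 4 := by omega
    have := b6 D hNe h4
    have ht : t ∈ D ∪ Nb G D := by rw [this]; trivial
    rcases ht with h | h
    · exact hD h (Or.inr htU)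
    · exact htN h
  have hsub : Nb G D ⊆ ({s, x, y} : Set V) ∪ US G s x y := by
    rintro b ⟨hb, a, ha, hab⟩
    by_contra hcon
    exact hb (hcl a ha b hcon hab)
  obtain ⟨u, u', hu, hu', hne, hN⟩ := five s x y (US G s x y) (Nb G D) hsub h5 h2
  exact ⟨u, u', hDc, hD, hu, hu', hne, hN⟩

private theorem lemC {V : Type} [Finite V] (hP : StPCL) (hB : StBAS) (G : SimpleGraph V) (s x y : V) (hG : Bh G)
    (hxy : G.Adj x y) (hs : Srv G s x y) (hds : ∀ z v p q r r', ¬ DSc G z v p q r r') (u : V) (hu : u ∈ US G s x y) :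
    ∃ w ∈ ({s, x, y} ∪ US G s x y)ᶜ, G.Adj u w := by
  by_contra hcon
  push Not at hcon
  have hus : u ≠ s := cof_ne _ _ _ _ hu.2.2.1
  have hsub : Nb G {u} ⊆ ({s, x, y} : Set V) ∪ US G s x y := by
    rintro b ⟨-, a, ha, hab⟩
    by_contra hb
    rw [Set.mem_singleton_iff] at ha
    subst ha
    exact hcon b hb hab
  have hNu : Nb G {u} = {a | G.Adj u a} := by
    ext b
    constructor
    · rintro ⟨-, a, ha, hab⟩
      rw [Set.mem_singleton_iff] at ha
      subst ha
      exact hab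
    · intro hb
      exact ⟨fun e => G.ne_of_adj hb (Set.mem_singleton_iff.1 e).symm, u, rfl, hb⟩
  have hD' : ({u} : Set V) ⊆ ({s, x, y} : Set V)ᶜ := by
    intro t ht h
    rw [Set.mem_singleton_iff] at ht
    subst ht
    rcases h with h | h | h
    · exact hus h
    · exact hu.1 h
    · exact hu.2.1 h
  have h2 := lemA' hP hB G s x y hG hxy hs {u} hD' (con_sing G u)
  obtain ⟨-, -, -, b4, -, -, -⟩ := hB V G hG
  have h5 : 5 ≤ (Nb G {u}).ncard := by rw [hNu]; exact b4 u
  obtain ⟨v, v', hv, hv', hne, hN⟩ := five s x y (US G s x y) (Nb G {u}) hsub h5 h2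
  have hvs : v ≠ s := cof_ne _ _ _ _ hv.2.2.1
  have hvs' : v' ≠ s := cof_ne _ _ _ _ hv'.2.2.1
  refine hds u s x y v v' ⟨?_, ⟨hs.1, hs.2.1, hvs.symm, hvs'.symm, G.ne_of_adj hxy, hv.1.symm, hv'.1.symm, hv.2.1.symm, hv'.2.1.symm, hne⟩,
    hxy, hs.2.2⟩
  intro a
  have : G.Adj u a ↔ a ∈ ({x, y, s, v, v'} : Set V) := by rw [← hN, hNu]; rfl
  rw [this]
  simp only [Set.mem_insert_iff, Set.mem_singleton_iff]
  tauto

/-- UCA: two components -/
theorem hUCA : StPCL → StBAS → StUCA := by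
  intro hP hB V _ G s x y hG hxy hs hds h3
  have hne : (US G s x y).Nonempty := by
    rw [← Set.ncard_pos (Set.toFinite _)]
    omega
  obtain ⟨u, hu⟩ := hne
  obtain ⟨w, hw, huw⟩ := lemC hP hB G s x y hG hxy hs hds u hu
  obtain ⟨D, hDW, hwD, hDc, hDcl⟩ := comp_ex G _ w hw
  obtain ⟨a, b, hBl⟩ := lemB hP hB G s x y hG hxy hs h3 D hDW hDc hDcl
  have hex : ∃ t ∈ US G s x y, t ≠ a ∧ t ≠ b := by
    by_contra hcon
    push Not at hcon
    have hsub : US G s x y ⊆ {a, b} := by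
      intro t ht
      by_cases h : t = a
      · exact Or.inl h
      · exact Or.inr (hcon t ht h)
    have h1 := Set.ncard_le_ncard hsub (Set.toFinite _)
    have h2 := Set.ncard_insert_le a ({b} : Set V)
    rw [Set.ncard_singleton] at h2
    omega
  obtain ⟨t, htU, hta, htb⟩ := hex
  obtain ⟨w', hw', htw'⟩ := lemC hP hB G s x y hG hxy hs hds t htU
  obtain ⟨D', hDW', hwD', hDc', hDcl'⟩ := comp_ex G _ w' hw'
  obtain ⟨a', b', hBl'⟩ := lemB hP hB G s x y hG hxy hs h3 D' hDW' hDc' hDcl'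
  refine ⟨D, D', a, b, a', b', hBl, hBl', ?_⟩
  rw [Set.disjoint_left]
  intro z hz hz'
  have hsub := closed_sub G D D' hDc' (fun p hp q hq h => hDcl p hp q (hDW' hq) h) z hz hz'
  have hwD2 : w' ∈ D := hsub hwD'
  have htN : t ∈ Nb G D := ⟨fun h => hDW h (Or.inr htU), w', hwD2, htw'.symm⟩
  rw [hBl.nb] at htN
  have hts : t ≠ s := cof_ne _ _ _ _ htU.2.2.1
  rcases htN with h | h | h | h | h
  · exact htU.1 h
  · exact htU.2.1 h
  · exact hts h
  · exact hta h
  · exact htb h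

end Pool.Agent.Helper89.MA
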